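import Pool.Agent.Lib.MP_edb5be_nt.PD.Iface2

/-!
Project PD (MP_edb5be_nt), module BWF: basic facts about the words of given length and sum.
-/

set_option autoImplicit false

namespace Pool.Agent.Lib.MP_edb5be_nt.PD.H95

open Finset Pool.Agent.Lib.MP_edb5be_nt.EX

theorem mem_bw (hW : WordsStatement) (m b : ℕ) (u : List ℕ) :
    u ∈ Bw m b ↔ u.length = m ∧ (∀ a ∈ u, 1 ≤ a) ∧ u.sum = b := by
  unfold Bw
  rw [mem_filter, hW.1]
  constructor
  · rintro ⟨⟨h1, h2⟩, h3⟩
    exact ⟨h1, fun a ha => (h2 a ha).1, h3⟩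
  · rintro ⟨h1, h2, h3⟩
    exact ⟨⟨h1, fun a ha => ⟨h2 a ha, h3 ▸ List.single_le_sum (by simp) a ha⟩⟩, h3⟩

theorem pb_card (m b : ℕ) : Pb m b = ((Bw m b).card : ℝ) / 2 ^ b := by
  unfold Pb pr
  rw [sum_congr rfl (g := fun _ => (1 : ℝ) / 2 ^ b), sum_const, nsmul_eq_mul]
  · ring
  · intro u hu
    rw [Bw, mem_filter] at hu
    rw [hu.2]

theorem bw_succ (hW : WordsStatement) (m b : ℕ) :
    Bw (m + 1) b = (Icc 1 b).biUnion fun a => (Bw m (b - a)).image (List.cons a) := by
  ext u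
  rw [mem_bw hW, mem_biUnion]
  constructor
  · rintro ⟨h1, h2, h3⟩
    obtain ⟨a, v, rfl⟩ := List.exists_cons_of_length_eq_add_one h1
    rw [List.sum_cons] at h3
    refine ⟨a, mem_Icc.mpr ⟨h2 a (by simp), by omega⟩, mem_image.mpr ⟨v, ?_, rfl⟩⟩
    rw [mem_bw hW]
    refine ⟨by simpa using h1, fun c hc => h2 c (by simp [hc]), by omega⟩
  · rintro ⟨a, ha, hu⟩
    obtain ⟨v, hv, rfl⟩ := mem_image.mp hu
    rw [mem_bw hW] at hv
    rw [mem_Icc] at ha
    refine ⟨by simp [hv.1], ?_, by rw [List.sum_cons, hv.2.2]; omega⟩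
    intro c hc
    rcases List.mem_cons.mp hc with rfl | hc
    · exact ha.1
    · exact hv.2.1 c hc

theorem card_succ (hW : WordsStatement) (m b : ℕ) :
    (Bw (m + 1) b).card = ∑ a ∈ Icc 1 b, (Bw m (b - a)).card := by
  rw [bw_succ hW, card_biUnion]
  · refine sum_congr rfl fun a _ => card_image_of_injective _ (List.cons_injective)
  · intro a _ a' _ haa
    refine disjoint_left.mpr ?_
    intro u hu hu'
    obtain ⟨v, _, rfl⟩ := mem_image.mp hu
    obtain ⟨v', _, h⟩ := mem_image.mp hu'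
    exact haa (by simpa using (List.cons.inj h).1.symm)

theorem card_succ' (hW : WordsStatement) (m b : ℕ) :
    (Bw (m + 1) b).card = ∑ j ∈ range b, (Bw m j).card := by
  rw [card_succ hW]
  refine sum_bij (fun a _ => b - a) ?_ ?_ ?_ ?_
  · intro a ha; rw [mem_Icc] at ha; rw [mem_range]; omega
  · intro a ha a' ha' h; rw [mem_Icc] at ha ha'; omega
  · intro j hj; rw [mem_range] at hj
    exact ⟨b - j, mem_Icc.mpr ⟨by omega, by omega⟩, by omega⟩
  · intro a _; rfl

theorem card_zero (hW : WordsStatement) (b : ℕ) : (Bw 0 b).card = if b = 0 then 1 else 0 := by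
  split_ifs with h
  · subst h
    have : Bw 0 0 = {[]} := by
      ext u
      rw [mem_bw hW, mem_singleton]
      constructor
      · rintro ⟨h1, -, -⟩; exact List.length_eq_zero_iff.mp h1
      · rintro rfl; simp
    rw [this, card_singleton]
  · rw [card_eq_zero, eq_empty_iff_forall_notMem]
    intro u hu
    rw [mem_bw hW] at hu
    have h1 := List.length_eq_zero_iff.mp hu.1
    subst h1
    exact h (by simpa using hu.2.2.symm)

theorem sum_choose (m : ℕ) : ∀ b : ℕ, ∑ j ∈ range b, j.choose m = b.choose (m + 1)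
  | 0 => by simp
  | b + 1 => by
      rw [sum_range_succ, sum_choose m b, Nat.choose_succ_succ, Nat.add_comm]

theorem card_eq (hW : WordsStatement) : ∀ m b : ℕ, (Bw (m + 1) (b + 1)).card = b.choose m
  | 0, b => by
      rw [card_succ' hW, sum_range_succ', sum_eq_zero]
      · rw [card_zero hW]; simp
      · intro j _; rw [card_zero hW]; simp
  | m + 1, b => by
      rw [card_succ' hW, sum_range_succ']
      have h0 : (Bw (m + 1) 0).card = 0 := by rw [card_succ' hW]; simp
      rw [h0, add_zero, sum_congr rfl fun j _ => card_eq hW m j, sum_choose]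

theorem pb_succ (hW : WordsStatement) (m b : ℕ) :
    Pb (m + 1) b = ∑ a ∈ Icc 1 b, 1 / 2 ^ a * Pb m (b - a) := by
  rw [pb_card, card_succ hW, Nat.cast_sum, sum_div]
  refine sum_congr rfl fun a ha => ?_
  rw [mem_Icc] at ha
  rw [pb_card]
  have h : (2 : ℝ) ^ b = 2 ^ a * 2 ^ (b - a) := by
    rw [← pow_add]; congr 1; omega
  rw [h]
  field_simp

theorem sum_half (b : ℕ) : ∑ a ∈ Icc 1 b, (1 : ℝ) / 2 ^ a = 1 - 1 / 2 ^ b := by
  induction b with
  | zero => simp
  | succ b ih =>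
    rw [sum_Icc_succ_top (by omega), ih, pow_succ]
    field_simp
    ring

theorem pb_le (hW : WordsStatement) : ∀ m b : ℕ, 0 ≤ Pb m b ∧ Pb m b ≤ 1
  | 0, b => by
      rw [pb_card, card_zero hW]
      refine ⟨by positivity, ?_⟩
      split_ifs with h
      · subst h; simp
      · simp
  | m + 1, b => by
      refine ⟨by rw [pb_card]; positivity, ?_⟩
      rw [pb_succ hW]
      calc ∑ a ∈ Icc 1 b, 1 / 2 ^ a * Pb m (b - a) ≤ ∑ a ∈ Icc 1 b, (1 : ℝ) / 2 ^ a := by
            refine sum_le_sum fun a _ => ?_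
            have := (pb_le hW m (b - a)).2
            have h2 : (0 : ℝ) ≤ 1 / 2 ^ a := by positivity
            nlinarith
        _ = 1 - 1 / 2 ^ b := sum_half b
        _ ≤ 1 := by
            have : (0 : ℝ) ≤ 1 / 2 ^ b := by positivity
            linarith

theorem fd_eq (hW : WordsStatement) (J : ℕ) (z : ℤ) :
    Fd J z = ∑ s ∈ range (4 * J + 1), Gw J s z := by
  unfold Fd su
  rw [← sum_fiberwise_of_maps_to (t := range (4 * J + 1)) (g := fun u : List ℕ => u.sum)]
  · refine sum_congr rfl fun s hs => ?_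
    unfold Gw su
    refine sum_congr ?_ fun _ _ => rfl
    ext u
    rw [mem_range] at hs
    simp only [mem_filter, mem_bw hW, Uw, hW.1]
    constructor
    · rintro ⟨⟨⟨⟨h1, h2⟩, h3⟩, h4⟩, h5⟩
      exact ⟨⟨h1, fun a ha => (h2 a ha).1, h5⟩, h4⟩
    · rintro ⟨⟨h1, h2, h3⟩, h4⟩
      refine ⟨⟨⟨⟨h1, fun a ha => ⟨h2 a ha, ?_⟩⟩, by omega⟩, h4⟩, h3⟩
      have : a ≤ u.sum := List.single_le_sum (by simp) a ha
      omega
  · intro u hu
    simp only [mem_filter, Uw] at hu
    rw [mem_range]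
    omega

theorem bwF (hW : WordsStatement) : BwFStatement := by
  refine ⟨mem_bw hW, ?_, pb_le hW, pb_succ hW, fd_eq hW⟩
  intro m b hm
  obtain ⟨m, rfl⟩ : ∃ k, m = k + 1 := ⟨m - 1, by omega⟩
  rcases Nat.eq_zero_or_pos b with rfl | hb
  · right
    refine ⟨rfl, ?_⟩
    rw [pb_card, card_succ' hW]; simp
  · left
    obtain ⟨b, rfl⟩ : ∃ k, b = k + 1 := ⟨b - 1, by omega⟩
    rw [pb_card, card_eq hW]
    simp only [Nat.add_sub_cancel, ND.bw]
    rw [pow_succ]
    field_simp

end Pool.Agent.Lib.MP_edb5be_nt.PD.H95
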