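import Pool.Agent.Lib.MP_edb5be_nt.PD.Iface2

/-!
Project PD (MP_edb5be_nt), module GMIX: mixing for the words with given length and sum.
-/

set_option autoImplicit false

namespace Pool.Agent.Lib.MP_edb5be_nt.PD.H95

open Finset Pool.Agent.Lib.MP_edb5be_nt.EX

/-- The sum of a periodic function over several periods. -/
theorem sum_periods (q r : ℕ) (F : ℤ → ℝ) (hF : ∀ x, F (x + q) = F x) :
    ∑ t ∈ range (q * r), F t = r * ∑ t ∈ range q, F t := by
  have hmul : ∀ (n : ℕ) (x : ℤ), F (x + q * n) = F x := by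
    intro n
    induction n with
    | zero => intro x; simp
    | succ n ih =>
      intro x
      have : x + q * ((n + 1 : ℕ) : ℤ) = (x + q * n) + q := by push_cast; ring
      rw [this, hF, ih]
  induction r with
  | zero => simp
  | succ r ih =>
    rw [Nat.mul_succ, sum_range_add, ih]
    have : ∑ x ∈ range q, F ((q * r + x : ℕ) : ℤ) = ∑ x ∈ range q, F x := by
      refine sum_congr rfl fun x _ => ?_
      have h : ((q * r + x : ℕ) : ℤ) = (x : ℤ) + q * r := by push_cast; ring
      rw [h, hmul]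
    rw [this]
    push_cast
    ring

theorem pb_zero (b : ℕ) : Pb 0 b = if b = 0 then 1 else 0 := by
  unfold Pb pr Bw
  simp only [wds]
  split_ifs with h
  · subst h
    rw [filter_singleton]
    simp
  · rw [filter_singleton]
    have : ¬ (([] : List ℕ).sum = b) := by simpa using fun h' => h h'.symm
    rw [if_neg this]
    simp

theorem ew_top (m b : ℕ) (z : ℤ) : Ew m b m z = Gw m b z := by
  unfold Ew
  rw [sum_eq_single b]
  · rw [Nat.sub_self, Nat.sub_self, pb_zero]; simp
  · intro s hs hsb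
    rw [mem_range] at hs
    rw [Nat.sub_self, pb_zero, if_neg (by omega), zero_mul]
  · intro h; exact absurd (mem_range.mpr (by omega)) h

/-- The average over the last digit. -/
theorem ew_lift (h4 : ∀ m b : ℕ, Pb (m + 1) b = ∑ a ∈ Icc 1 b, 1 / 2 ^ a * Pb m (b - a))
    (h3 : LiftStatement) (m b k : ℕ) (hk : k + 1 ≤ m) (z : ℤ) :
    (Ew m b (k + 1) z + Ew m b (k + 1) (z + 3 ^ k) + Ew m b (k + 1) (z + 2 * 3 ^ k)) / 3 =
      Ew m b k z := by
  unfold Ew
  rw [← sum_add_distrib, ← sum_add_distrib, sum_div]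
  have e1 : ∀ s ∈ range (b + 1), (Pb (m - (k + 1)) (b - s) * Gw (k + 1) s z +
      Pb (m - (k + 1)) (b - s) * Gw (k + 1) s (z + 3 ^ k) +
      Pb (m - (k + 1)) (b - s) * Gw (k + 1) s (z + 2 * 3 ^ k)) / 3 =
      ∑ a ∈ Icc 1 s, Pb (m - (k + 1)) (b - s) * (1 / 2 ^ a * Gw k (s - a) z) := by
    intro s _
    rw [← mul_sum, ← h3 k s z]
    ring
  rw [sum_congr rfl e1]
  have e2 : ∀ s ∈ range (b + 1), Pb (m - k) (b - s) * Gw k s z =
      ∑ a ∈ Icc 1 (b - s), Pb (m - (k + 1)) (b - s - a) * (1 / 2 ^ a * Gw k s z) := by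
    intro s _
    have : m - k = (m - (k + 1)) + 1 := by omega
    rw [this, h4, sum_mul]
    exact sum_congr rfl fun a _ => by ring
  rw [sum_congr rfl e2, sum_sigma', sum_sigma']
  refine sum_bij' (fun p _ => ⟨p.1 - p.2, p.2⟩) (fun p _ => ⟨p.1 + p.2, p.2⟩) ?_ ?_ ?_ ?_ ?_
  · rintro ⟨s, a⟩ h
    simp only [mem_sigma, mem_range, mem_Icc] at h ⊢
    omega
  · rintro ⟨s, a⟩ h
    simp only [mem_sigma, mem_range, mem_Icc] at h ⊢
    omega
  · rintro ⟨s, a⟩ h
    simp only [mem_sigma, mem_range, mem_Icc] at h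
    simp only [Sigma.mk.injEq, heq_eq_eq, and_true]
    omega
  · rintro ⟨s, a⟩ h
    simp only [mem_sigma, mem_range, mem_Icc] at h
    simp only [Sigma.mk.injEq, heq_eq_eq, and_true]
    omega
  · rintro ⟨s, a⟩ h
    simp only [mem_sigma, mem_range, mem_Icc] at h
    have : b - (s - a) - a = b - s := by omega
    simp only [this]

theorem gmix (h1 : BwFStatement) (h2 : OscStatement) (h3 : LiftStatement) (h4 : MeanStatement) :
    GMixStatement := by
  intro A
  obtain ⟨C, hC, hosc⟩ := h2 (A + 2)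
  refine ⟨C, hC, ?_⟩
  intro m b J hJ hJm
  have hper : ∀ (k s : ℕ) (y : ℤ), Gw k s (y + 3 ^ k) = Gw k s y := by
    intro k s y
    have := (h4 k 0 (Bw k s) (fun _ => 1) (fun u hu => ((h1.1 k s u).mp hu).1)
      (fun _ => rfl)).1 y
    simpa [Gw] using this
  -- one step
  have hstep : ∀ k : ℕ, k + 1 ≤ m →
      ∑ z ∈ range (3 ^ m), |Ew m b (k + 1) z - Ew m b k z| ≤ C / (k + 1 : ℕ) ^ (A + 2) * 3 ^ m := by
    intro k hk
    set av : ℕ → ℤ → ℝ := fun s z =>
      (Gw (k + 1) s z + Gw (k + 1) s (z + 3 ^ k) + Gw (k + 1) s (z + 2 * 3 ^ k)) / 3 with hav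
    have hb : ∀ z : ℤ, |Ew m b (k + 1) z - Ew m b k z| ≤
        ∑ s ∈ range (b + 1), |Gw (k + 1) s z - av s z| := by
      intro z
      have e : Ew m b (k + 1) z - Ew m b k z =
          ∑ s ∈ range (b + 1), Pb (m - (k + 1)) (b - s) * (Gw (k + 1) s z - av s z) := by
        rw [← ew_lift h1.2.2.2.1 h3 m b k hk z]
        unfold Ew
        rw [← sum_add_distrib, ← sum_add_distrib, sum_div, ← sum_sub_distrib]
        refine sum_congr rfl fun s _ => ?_
        rw [hav]
        ring
      rw [e]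
      refine (abs_sum_le_sum_abs _ _).trans (sum_le_sum fun s _ => ?_)
      rw [abs_mul, abs_of_nonneg (h1.2.2.1 _ _).1]
      calc Pb (m - (k + 1)) (b - s) * |Gw (k + 1) s z - av s z| ≤
          1 * |Gw (k + 1) s z - av s z| :=
            mul_le_mul_of_nonneg_right (h1.2.2.1 _ _).2 (abs_nonneg _)
        _ = _ := one_mul _
    have hpow : 3 ^ m = 3 ^ (k + 1) * 3 ^ (m - (k + 1)) := by
      rw [← pow_add]; congr 1; omega
    calc ∑ z ∈ range (3 ^ m), |Ew m b (k + 1) z - Ew m b k z|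
        ≤ ∑ z ∈ range (3 ^ m), ∑ s ∈ range (b + 1), |Gw (k + 1) s z - av s z| :=
          sum_le_sum fun z _ => hb z
      _ = ((3 ^ (m - (k + 1)) : ℕ) : ℝ) *
          ∑ z ∈ range (3 ^ (k + 1)), ∑ s ∈ range (b + 1), |Gw (k + 1) s z - av s z| := by
          rw [hpow]
          refine sum_periods (3 ^ (k + 1)) (3 ^ (m - (k + 1)))
            (fun z => ∑ s ∈ range (b + 1), |Gw (k + 1) s z - av s z|) ?_
          intro x
          refine sum_congr rfl fun s _ => ?_
          have a1 : x + ((3 ^ (k + 1) : ℕ) : ℤ) = x + 3 ^ (k + 1) := by push_cast; ring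
          have a2 : x + 3 ^ (k + 1) + 3 ^ k = (x + 3 ^ k) + 3 ^ (k + 1) := by ring
          have a3 : x + 3 ^ (k + 1) + 2 * 3 ^ k = (x + 2 * 3 ^ k) + 3 ^ (k + 1) := by ring
          rw [a1, hav]
          simp only
          rw [a2, a3, hper, hper, hper]
      _ = ((3 ^ (m - (k + 1)) : ℕ) : ℝ) *
          ∑ s ∈ range (b + 1), ∑ z ∈ range (3 ^ (k + 1)), |Gw (k + 1) s z - av s z| := by
          rw [sum_comm]
      _ ≤ ((3 ^ (m - (k + 1)) : ℕ) : ℝ) * (C / (k + 1 : ℕ) ^ (A + 2) * 3 ^ (k + 1)) := by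
          refine mul_le_mul_of_nonneg_left ?_ (by positivity)
          have := hosc (k + 1) b (by omega)
          simpa [hav] using this
      _ = C / (k + 1 : ℕ) ^ (A + 2) * 3 ^ m := by
          have : (3 : ℝ) ^ m = 3 ^ (k + 1) * 3 ^ (m - (k + 1)) := by exact_mod_cast hpow
          rw [this]
          push_cast
          ring
  -- all steps
  have hall : ∀ k : ℕ, J ≤ k → k ≤ m → ∑ z ∈ range (3 ^ m), |Ew m b k z - Ew m b J z| ≤
      C / J ^ A * 3 ^ m * (1 / J - 1 / k) := by
    intro k hk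
    induction k, hk using Nat.le_induction with
    | base => intro _; simp
    | succ k hk ih =>
      intro hkm
      have ih := ih (by omega)
      have hst := hstep k hkm
      have hJ0 : (0 : ℝ) < J := by exact_mod_cast hJ
      have hk0 : (0 : ℝ) < k := by exact_mod_cast (by omega : 0 < k)
      have hJk : (J : ℝ) ≤ k := by exact_mod_cast hk
      have hin : C / ((k + 1 : ℕ) : ℝ) ^ (A + 2) ≤ C / J ^ A * (1 / k - 1 / ((k + 1 : ℕ) : ℝ)) := by
        have e1 : (1 : ℝ) / k - 1 / ((k + 1 : ℕ) : ℝ) = 1 / (k * (k + 1)) := by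
          push_cast
          field_simp
          ring
        rw [e1, div_mul_div_comm, mul_one]
        apply div_le_div_of_nonneg_left hC.le (by positivity)
        push_cast
        rw [pow_add]
        have p1 : (J : ℝ) ^ A ≤ ((k : ℝ) + 1) ^ A := pow_le_pow_left₀ hJ0.le (by linarith) A
        have p2 : (k : ℝ) * (k + 1) ≤ ((k : ℝ) + 1) ^ 2 := by nlinarith
        exact mul_le_mul p1 p2 (by positivity) (by positivity)
      calc ∑ z ∈ range (3 ^ m), |Ew m b (k + 1) z - Ew m b J z|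
          ≤ ∑ z ∈ range (3 ^ m), (|Ew m b (k + 1) z - Ew m b k z| + |Ew m b k z - Ew m b J z|) :=
            sum_le_sum fun z _ => abs_sub_le _ _ _
        _ = ∑ z ∈ range (3 ^ m), |Ew m b (k + 1) z - Ew m b k z| +
            ∑ z ∈ range (3 ^ m), |Ew m b k z - Ew m b J z| := sum_add_distrib
        _ ≤ C / J ^ A * (1 / k - 1 / ((k + 1 : ℕ) : ℝ)) * 3 ^ m +
            C / J ^ A * 3 ^ m * (1 / J - 1 / k) := by
            refine add_le_add (hst.trans ?_) ih
            exact mul_le_mul_of_nonneg_right hin (by positivity)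
        _ = _ := by ring
  have hfin := hall m hJm le_rfl
  have hJ0 : (0 : ℝ) < J := by exact_mod_cast hJ
  have hm0 : (0 : ℝ) < m := by exact_mod_cast (by omega : 0 < m)
  calc ∑ z ∈ range (3 ^ m), |Gw m b z - Ew m b J z|
      = ∑ z ∈ range (3 ^ m), |Ew m b m z - Ew m b J z| := by
        refine sum_congr rfl fun z _ => ?_
        rw [ew_top]
    _ ≤ C / J ^ A * 3 ^ m * (1 / J - 1 / m) := hfin
    _ ≤ C / J ^ A * 3 ^ m * 1 := by
        refine mul_le_mul_of_nonneg_left ?_ (by positivity)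
        have q1 : (1 : ℝ) / J ≤ 1 := by
          rw [div_le_one hJ0]; exact_mod_cast hJ
        have q2 : (0 : ℝ) ≤ 1 / m := by positivity
        linarith
    _ = C / J ^ A * 3 ^ m := mul_one _

end Pool.Agent.Lib.MP_edb5be_nt.PD.H95
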